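import Pool.Agent.UL5.Stmts

/-!
# Row DCI of squad UL5: interior points of the double cone
-/

set_option autoImplicit false

namespace Pool.Agent.UL5.H92

open MeasureTheory Set Pool.Agent.UL3 Pool.Agent.UL4

theorem up_cont {X : Type} [TopologicalSpace X] {f : X → ℝ × ℝ} {g : X → ℝ} (hf : Continuous f)
    (hg : Continuous g) : Continuous fun x => up (f x) (g x) := by
  unfold up
  refine (PiLp.continuous_toLp 2 _).comp (continuous_pi fun i => ?_)
  fin_cases i
  · exact continuous_fst.comp hf
  · exact continuous_snd.comp hf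
  · exact hg

/-- **Row DCI** -/
theorem dci : DciStmt := by
  intro C p z _ hz
  have hle : ∀ t : ℝ, up p t ∈ dco C → |t| ≤ 1 := fun t ht => ht.1
  have hlt : |z| < 1 := by
    obtain ⟨S, hS⟩ : ∃ S : Set ℝ, S = (fun t : ℝ => up p t) ⁻¹' interior (dco C) := ⟨_, rfl⟩
    have hSo : IsOpen S := by
      rw [hS]
      exact isOpen_interior.preimage (up_cont continuous_const continuous_id)
    have hzS : z ∈ S := by
      rw [hS]
      exact hz
    obtain ⟨δ, hδ, hball⟩ := Metric.isOpen_iff.1 hSo z hzS
    have h1 : ∀ t : ℝ, |t - z| < δ → |t| ≤ 1 := by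
      intro t ht
      have h2 : t ∈ S := hball (by rw [Metric.mem_ball, Real.dist_eq]; exact ht)
      rw [hS] at h2
      exact hle t (interior_subset h2)
    rcases le_total 0 z with h0 | h0
    · have h2 := h1 (z + δ / 2) (by
        rw [add_sub_cancel_left, abs_of_pos (by linarith)]
        linarith)
      have h3 := (abs_le.1 h2).2
      rw [abs_of_nonneg h0]
      linarith
    · have h2 := h1 (z - δ / 2) (by
        rw [sub_sub_cancel_left, abs_neg, abs_of_pos (by linarith)]
        linarith)
      have h3 := (abs_le.1 h2).1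
      rw [abs_of_nonpos h0]
      linarith
  refine ⟨hlt, ?_⟩
  have h1 : 0 < 1 - |z| := by linarith
  have hsub : (fun q : ℝ × ℝ => up ((1 - |z|) • q) z) ⁻¹' interior (dco C) ⊆ C := by
    intro q hq
    obtain ⟨-, c, hc, hqc⟩ := interior_subset hq
    have e1 : (1 - |z|) • q = (1 - |z|) • c := hqc
    have e2 : q = c := smul_right_injective _ h1.ne' e1
    rw [e2]
    exact hc
  refine interior_maximal hsub (isOpen_interior.preimage
    (up_cont (continuous_const_smul _) continuous_const)) ?_
  show up ((1 - |z|) • (1 - |z|)⁻¹ • p) z ∈ interior (dco C)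
  rw [smul_inv_smul₀ h1.ne']
  exact hz

end Pool.Agent.UL5.H92
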